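import Pool.Agent.N561.EK.Stm

/-!
# EK/4: the inequalities at the ends of the paths
-/

set_option autoImplicit false

namespace Pool.Agent.N868.EK

open Finset Filter Topology Metric
open Pool.Agent.N561 Pool.Agent.N561.EK
open scoped Real

/-- radial bound: if `‖f'(w)‖ ≤ K ‖w‖` on `DD` then `‖f w - f 0‖ ≤ K ‖w‖^2 / 2` -/
theorem radial (f f' : ℂ → ℂ) (K : ℝ) (hd : ∀ w ∈ DD, HasDerivAt f (f' w) w)
    (hb : ∀ w ∈ DD, ‖f' w‖ ≤ K * ‖w‖) (w : ℂ) (hw : w ∈ DD) :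
    ‖f w - f 0‖ ≤ K * ‖w‖ ^ 2 / 2 := by
  have hseg : ∀ t ∈ Set.Icc (0:ℝ) 1, (t:ℂ) * w ∈ DD := by
    intro t ht
    obtain ⟨h1, h2⟩ := hw
    have e1 : ((t:ℂ) * w).re = t * w.re := by simp
    have e2 : ((t:ℂ) * w).im = t * w.im := by simp
    refine ⟨?_, ?_⟩
    · rw [e1, abs_mul, abs_of_nonneg ht.1]
      calc t * |w.re| ≤ 1 * |w.re| := mul_le_mul_of_nonneg_right ht.2 (abs_nonneg _)
        _ < 21/20 := by rw [one_mul]; exact h1
    · rw [e2, abs_mul, abs_of_nonneg ht.1]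
      calc t * |w.im| ≤ 1 * |w.im| := mul_le_mul_of_nonneg_right ht.2 (abs_nonneg _)
        _ < 1/4 := by rw [one_mul]; exact h2
  have hder : ∀ t ∈ Set.Icc (0:ℝ) 1,
      HasDerivAt (fun t : ℝ => f ((t:ℂ) * w) - f 0) (f' ((t:ℂ) * w) * w) t := by
    intro t ht
    have h1 := hd _ (hseg t ht)
    have h2 : HasDerivAt (fun t : ℝ => (t:ℂ) * w) w t := by
      have := (Complex.ofRealCLM.hasDerivAt (x := t)).mul_const w
      simpa using this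
    have h3 := h1.comp_of_eq t h2 rfl
    exact h3.sub_const (f 0)
  have hB : ∀ t : ℝ, HasDerivAt (fun t : ℝ => K * ‖w‖^2 / 2 * t^2) (K * ‖w‖^2 * t) t := by
    intro t
    have := (hasDerivAt_pow 2 t).const_mul (K * ‖w‖^2 / 2)
    have e : K * ‖w‖^2 * t = K * ‖w‖ ^ 2 / 2 * ((2:ℕ) * t ^ (2 - 1)) := by
      norm_num
      ring
    rw [e]
    exact this
  have key := image_norm_le_of_norm_deriv_right_le_deriv_boundary (a := (0:ℝ)) (b := 1)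
    (f := fun t : ℝ => f ((t:ℂ) * w) - f 0) (f' := fun t => f' ((t:ℂ) * w) * w)
    (B := fun t : ℝ => K * ‖w‖^2 / 2 * t^2) (B' := fun t => K * ‖w‖^2 * t)
    (fun t ht => (hder t ht).continuousAt.continuousWithinAt)
    (fun t ht => (hder t ⟨ht.1, ht.2.le⟩).hasDerivWithinAt)
    (by simp) (fun t => hB t)
    (by
      intro t ht
      have h1 := hb _ (hseg t ⟨ht.1, ht.2.le⟩)
      rw [norm_mul] at h1 ⊢
      rw [Complex.norm_real, Real.norm_of_nonneg ht.1] at h1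
      calc ‖f' ((t:ℂ) * w)‖ * ‖w‖ ≤ K * (t * ‖w‖) * ‖w‖ :=
            mul_le_mul_of_nonneg_right h1 (norm_nonneg _)
        _ = K * ‖w‖^2 * t := by ring)
  have := key (x := 1) ⟨zero_le_one, le_refl _⟩
  simpa using this

/-- horizontal bound -/
theorem horiz (f f' : ℂ → ℂ) (K : ℝ) (hK : 0 ≤ K) (hd : ∀ w ∈ DD, HasDerivAt f (f' w) w)
    (hb : ∀ w ∈ DD, ‖f' w‖ ≤ K * ‖w‖) (z w : ℂ) (hz : |z.re| ≤ 1) (hz' : |z.im| ≤ 23 / 100)
    (hw : |w.re| ≤ 1) (hw' : w.im = z.im) :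
    ‖f w - f z‖ ≤ K * (103 / 100) * |w.re - z.re| := by
  have hC : Convex ℝ {w : ℂ | |w.re| ≤ 1 ∧ |w.im| ≤ 23 / 100} := by
    have e : {w : ℂ | |w.re| ≤ 1 ∧ |w.im| ≤ 23 / 100} =
        (Complex.reLm ⁻¹' Set.Icc (-1) 1) ∩ (Complex.imLm ⁻¹' Set.Icc (-(23/100)) (23/100)) := by
      ext w; simp [abs_le]
    rw [e]
    exact ((convex_Icc _ _).linear_preimage _).inter ((convex_Icc _ _).linear_preimage _)
  have hsub : ∀ w ∈ {w : ℂ | |w.re| ≤ 1 ∧ |w.im| ≤ 23 / 100}, w ∈ DD ∧ ‖w‖ ≤ 103 / 100 := by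
    intro w hw
    obtain ⟨h1, h2⟩ := hw
    refine ⟨⟨by linarith, by linarith⟩, ?_⟩
    have h3 : ‖w‖ ^ 2 = w.re ^ 2 + w.im ^ 2 := by
      rw [Complex.sq_norm, Complex.normSq_apply]; ring
    have h4 : w.re ^ 2 ≤ 1 := by rw [← sq_abs]; nlinarith [abs_nonneg w.re]
    have h5 : w.im ^ 2 ≤ (23/100)^2 := by rw [← sq_abs]; nlinarith [abs_nonneg w.im]
    nlinarith [norm_nonneg w]
  have h := hC.norm_image_sub_le_of_norm_hasDerivWithin_le (f := f) (f' := f')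
    (C := K * (103/100)) (x := z) (y := w)
    (fun x hx => (hd x (hsub x hx).1).hasDerivWithinAt)
    (fun x hx => (hb x (hsub x hx).1).trans (mul_le_mul_of_nonneg_left (hsub x hx).2 hK))
    ⟨hz, hz'⟩ ⟨hw, by rw [hw']; exact hz'⟩
  have e : ‖w - z‖ = |w.re - z.re| := by
    have : w - z = ((w.re - z.re : ℝ) : ℂ) := by
      apply Complex.ext
      · simp
      · simp [hw']
    rw [this, Complex.norm_real, Real.norm_eq_abs]
  rwa [e] at h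

theorem mem_DD_of_D0 {z : ℂ} (hz : z ∈ D0) : z ∈ DD ∧ z ∈ D1 ∧ |z.im| ≤ 23 / 100 ∧
    0 ≤ z.im ∧ ‖z‖ ≤ 21 / 50 := by
  obtain ⟨h1, h2, h3⟩ := hz
  have h4 : 0 ≤ z.im := by
    rcases h3 with h | h
    · rw [h]; simp
    · exact h.le
  have h5 : |z.im| ≤ 23 / 100 := by rw [abs_of_nonneg h4]; exact h2
  refine ⟨⟨?_, by linarith⟩, ⟨h1, h5⟩, h5, h4, h1⟩
  have := Complex.abs_re_le_norm z
  linarith

theorem one_mem_DD : (1 : ℂ) ∈ DD := by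
  refine ⟨by norm_num, by norm_num⟩

/-- `sg` at an end of a path -/
theorem sg_CO (P : POT) (w φ : ℂ) (hw : CO w) : sg w φ = sg 1 φ := by
  obtain ⟨h1, h2⟩ := hw
  rcases (abs_eq (zero_le_one)).1 h1 with h | h
  · have : w = 1 := Complex.ext (by simp [h]) (by simp [h2])
    rw [this]
  · have : w = -1 := Complex.ext (by simp [h]) (by simp [h2])
    rw [this, P.ev]

theorem s2_eq (P : POT) (ψ φ : ℂ) : s2 ψ φ = s1 φ ψ := by
  unfold s1 s2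
  congr 1
  funext w
  exact P.sym _ _

theorem has1 (P : POT) {ψ φ : ℂ} (hψ : ψ ∈ DD) (hφ : φ ∈ DD) :
    HasDerivAt (fun w => sg w φ) (s1 ψ φ) ψ := by
  have h := P.d1 ψ hψ φ hφ
  have e : s1 ψ φ = _ := h.deriv
  rw [e]; exact h

/-- the difference from the quadratic part, first variable -/
noncomputable def gg (φ w : ℂ) : ℂ := sg w φ + w ^ 2 / (4 * π)

theorem gg_der (P : POT) {φ : ℂ} (hφ : φ ∈ DD) (w : ℂ) (hw : w ∈ DD) :
    HasDerivAt (gg φ) (s1 w φ + w / (2 * π)) w := by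
  have h1 := has1 P hw hφ
  have h2 : HasDerivAt (fun w : ℂ => w ^ 2 / (4 * π)) (w / (2 * π)) w := by
    have := (hasDerivAt_pow 2 w).div_const ((4:ℂ) * π)
    have e : w / (2 * π) = ((2:ℕ) : ℂ) * w ^ (2 - 1) / (4 * π) := by
      have : (π:ℂ) ≠ 0 := by exact_mod_cast Real.pi_ne_zero
      field_simp
      norm_num
      ring
    rw [e]; exact this
  exact h1.add h2

theorem gg_bd (M : MUL) {φ : ℂ} (hφ : φ ∈ DD) (w : ℂ) (hw : w ∈ DD) :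
    ‖s1 w φ + w / (2 * π)‖ ≤ 1 / (8 * π) * ‖w‖ := by
  have := M.mD w hw φ hφ
  refine this.trans (le_of_eq ?_)
  have : π ≠ 0 := Real.pi_ne_zero
  field_simp
  norm_num
  ring

theorem gg_one (P : POT) (M : MUL) {φ z : ℂ} (hφ : φ ∈ DD) (hz : z ∈ D0) :
    ‖gg φ 1 - gg φ z‖ ≤ 1 / π * (11764 / 160000) := by
  have h1 := radial (gg φ) (fun w => s1 w φ + w / (2 * π)) (1 / (8 * π)) (gg_der P hφ)
    (gg_bd M hφ) 1 one_mem_DD
  have h2 := radial (gg φ) (fun w => s1 w φ + w / (2 * π)) (1 / (8 * π)) (gg_der P hφ)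
    (gg_bd M hφ) z (mem_DD_of_D0 hz).1
  have h3 : ‖gg φ 1 - gg φ z‖ ≤ ‖gg φ 1 - gg φ 0‖ + ‖gg φ z - gg φ 0‖ := by
    have : gg φ 1 - gg φ z = (gg φ 1 - gg φ 0) - (gg φ z - gg φ 0) := by ring
    rw [this]; exact norm_sub_le _ _
  have h4 : ‖z‖ ^ 2 ≤ (21 / 50) ^ 2 := by
    have := (mem_DD_of_D0 hz).2.2.2.2
    gcongr
  have hp : 0 < 1 / π := by positivity
  have e1 : 1 / (8 * π) = 1 / π / 8 := by field_simp
  rw [e1] at h1 h2
  rw [norm_one] at h1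
  have h5 : 1 / π / 8 * ‖z‖ ^ 2 / 2 ≤ 1 / π / 8 * (21/50) ^ 2 / 2 := by gcongr
  calc ‖gg φ 1 - gg φ z‖ ≤ 1 / π / 8 * 1 ^ 2 / 2 + 1 / π / 8 * (21/50) ^ 2 / 2 := by linarith
    _ = 1 / π * (11764 / 160000) := by ring

theorem gg_horiz (P : POT) (M : MUL) {φ z w : ℂ} (hφ : φ ∈ DD) (hz : z ∈ D0) (hw : |w.re| ≤ 1)
    (hw' : w.im = z.im) : ‖gg φ w - gg φ z‖ ≤ 1 / π * (103 / 800 * |w.re - z.re|) := by
  obtain ⟨a1, a2, a3, a4, a5⟩ := mem_DD_of_D0 hz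
  have h1 := horiz (gg φ) (fun w => s1 w φ + w / (2 * π)) (1 / (8 * π)) (by positivity)
    (gg_der P hφ) (gg_bd M hφ) z w (by have := Complex.abs_re_le_norm z; linarith) a3 hw hw'
  refine h1.trans (le_of_eq ?_)
  field_simp
  norm_num
  ring

/-- real part of `w ^ 2 / (4 π)` -/
theorem sq_re (w : ℂ) : (w ^ 2 / (4 * π)).re = 1 / π * ((w.re ^ 2 - w.im ^ 2) / 4) := by
  have e : w ^ 2 / (4 * π) = ((1 / (4 * π) : ℝ) : ℂ) * w ^ 2 := by
    push_cast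
    field_simp
  rw [e, Complex.re_ofReal_mul]
  have : (w ^ 2).re = w.re ^ 2 - w.im ^ 2 := by rw [pow_two, Complex.mul_re]; ring
  rw [this]
  field_simp

theorem lin_re (w : ℂ) : (w / (2 * π)).re = 1 / π * (w.re / 2) ∧
    (w / (2 * π)).im = 1 / π * (w.im / 2) := by
  have e : w / (2 * π) = ((1 / (2 * π) : ℝ) : ℂ) * w := by
    push_cast
    field_simp
  rw [e, Complex.re_ofReal_mul, Complex.im_ofReal_mul]
  constructor
  · field_simp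
  · field_simp

theorem pi_bd : 317 / 1000 < 1 / π := by
  have h2 := Real.pi_lt_d2
  rw [lt_div_iff₀ Real.pi_pos]
  linarith

/-- the terms from the first derivatives -/
theorem m_im (z G : ℂ) (hz : z ∈ D0) (c : ℝ) (h : ‖G + z / (2 * π)‖ ≤ 1 / π * c) :
    1 / π * (-(z.im ^ 2 / 2)) - z.im * (1 / π * c) ≤ z.im * G.im := by
  obtain ⟨a1, a2, a3, a4, a5⟩ := mem_DD_of_D0 hz
  have h1 := (abs_le.1 ((Complex.abs_im_le_norm _).trans h)).1
  rw [Complex.add_im, (lin_re z).2] at h1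
  nlinarith

theorem gg_re (φ w : ℂ) : (gg φ w).re = (sg w φ).re + 1 / π * ((w.re ^ 2 - w.im ^ 2) / 4) := by
  unfold gg
  rw [Complex.add_re, sq_re]

theorem cor1 (P : POT) (M : MUL) (z : ℂ) (hz : z ∈ D0) (ψ : ℂ) (hψ : ψ ∈ DD) (w : ℂ)
    (hw : CO w) : (sg w ψ).re + 1 / 50 ≤ (sg z ψ).re + z.im * (s1 z ψ).im := by
  rw [sg_CO P w ψ hw]
  obtain ⟨a1, a2, a3, a4, a5⟩ := mem_DD_of_D0 hz
  have h1 := (abs_le.1 ((Complex.abs_re_le_norm _).trans (gg_one P M hψ hz))).2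
  rw [Complex.sub_re, gg_re, gg_re] at h1
  have h2 := m_im z (s1 z ψ) hz (21 / 400) (by
    refine (gg_bd M hψ z a1).trans ?_
    have : 1 / (8 * π) * ‖z‖ ≤ 1 / (8 * π) * (21/50) := by gcongr
    refine this.trans (le_of_eq ?_)
    field_simp
    norm_num)
  have h3 : z.re ^ 2 + z.im ^ 2 ≤ (21/50)^2 := by
    have : ‖z‖ ^ 2 = z.re ^ 2 + z.im ^ 2 := by
      rw [Complex.sq_norm, Complex.normSq_apply]; ring
    rw [← this]; gcongr
  have hp := pi_bd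
  have h4 := (abs_le.1 a3).2
  simp only [Complex.one_re, Complex.one_im] at h1
  obtain ⟨q, hq⟩ : ∃ q, q = 1 / π := ⟨_, rfl⟩
  rw [← hq] at h1 h2 hp
  have hq0 : 0 < q := by linarith
  have h5 : z.im * (q * (21/400)) ≤ 23/100 * (q * (21/400)) := by gcongr
  have h6 : q * (z.re ^ 2 + z.im ^ 2) ≤ q * (21/50)^2 := by gcongr
  nlinarith

theorem m1_bd (M : MUL) {z z' : ℂ} (hz : z ∈ D0) (hz' : z' ∈ D0) :
    ‖s1 z z' + z / (2 * π)‖ ≤ 1 / π * (21 / 2000) := by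
  obtain ⟨a1, a2, a3, a4, a5⟩ := mem_DD_of_D0 hz
  obtain ⟨b1, b2, b3, b4, b5⟩ := mem_DD_of_D0 hz'
  refine (M.m1 z a2 z' b2).trans ?_
  have : 1 / 20 * ‖z‖ / (2 * π) ≤ 1 / 20 * (21/50) / (2 * π) := by gcongr
  refine this.trans (le_of_eq ?_)
  field_simp
  norm_num

theorem norm_sq_bd {z : ℂ} (hz : z ∈ D0) : z.re ^ 2 + z.im ^ 2 ≤ (21/50)^2 := by
  obtain ⟨a1, a2, a3, a4, a5⟩ := mem_DD_of_D0 hz
  have : ‖z‖ ^ 2 = z.re ^ 2 + z.im ^ 2 := by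
    rw [Complex.sq_norm, Complex.normSq_apply]; ring
  rw [← this]; gcongr

theorem cor3 (P : POT) (M : MUL) (z : ℂ) (hz : z ∈ D0) (z' : ℂ) (hz' : z' ∈ D0) (w w' : ℂ)
    (hw : CO w) (hw' : CO w') :
    (sg w w').re + 1 / 50 ≤ (sg z z').re + z.im * (s1 z z').im + z'.im * (s2 z z').im := by
  rw [sg_CO P w w' hw, P.sym 1 w', sg_CO P w' 1 hw', s2_eq P]
  obtain ⟨a1, a2, a3, a4, a5⟩ := mem_DD_of_D0 hz
  obtain ⟨b1, b2, b3, b4, b5⟩ := mem_DD_of_D0 hz'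
  have h1 := (abs_le.1 ((Complex.abs_re_le_norm _).trans (gg_one P M one_mem_DD hz'))).2
  rw [Complex.sub_re, gg_re, gg_re] at h1
  have h1' := (abs_le.1 ((Complex.abs_re_le_norm _).trans (gg_one P M b1 hz))).2
  rw [Complex.sub_re, gg_re, gg_re, P.sym 1 z'] at h1'
  have h2 := m_im z (s1 z z') hz _ (m1_bd M hz hz')
  have h2' := m_im z' (s1 z' z) hz' _ (m1_bd M hz' hz)
  have h3 := norm_sq_bd hz
  have h3' := norm_sq_bd hz'
  have hp := pi_bd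
  have h4 := (abs_le.1 a3).2
  have h4' := (abs_le.1 b3).2
  simp only [Complex.one_re, Complex.one_im] at h1 h1'
  obtain ⟨q, hq⟩ : ∃ q, q = 1 / π := ⟨_, rfl⟩
  rw [← hq] at h1 h1' h2 h2' hp
  have hq0 : 0 < q := by linarith
  have h5 : z.im * (q * (21/2000)) ≤ 23/100 * (q * (21/2000)) := by gcongr
  have h5' : z'.im * (q * (21/2000)) ≤ 23/100 * (q * (21/2000)) := by gcongr
  have h6 : q * (z.re ^ 2 + z.im ^ 2) ≤ q * (21/50)^2 := by gcongr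
  have h6' : q * (z'.re ^ 2 + z'.im ^ 2) ≤ q * (21/50)^2 := by gcongr
  nlinarith

theorem cor2 (P : POT) (M : MUL) (z : ℂ) (hz : z ∈ D0) (z' : ℂ) (hz' : z' ∈ D0) (w w' : ℂ)
    (hw : CO w) (hw1 : |w'.re| ≤ 1) (hw2 : w'.im = z'.im) :
    (sg w w').re + 1 / 50 ≤
      (sg z z').re + z.im * (s1 z z').im + (w'.re - z'.re) * (s2 z z').re := by
  rw [sg_CO P w w' hw, s2_eq P]
  obtain ⟨a1, a2, a3, a4, a5⟩ := mem_DD_of_D0 hz
  obtain ⟨b1, b2, b3, b4, b5⟩ := mem_DD_of_D0 hz'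
  have h1 := (abs_le.1 ((Complex.abs_re_le_norm _).trans (gg_one P M b1 hz))).2
  rw [Complex.sub_re, gg_re, gg_re] at h1
  have h1' := (abs_le.1 ((Complex.abs_re_le_norm _).trans
    (gg_horiz P M one_mem_DD hz' hw1 hw2))).2
  rw [Complex.sub_re, gg_re, gg_re, P.sym w' 1, P.sym z' 1] at h1'
  have h2 := m_im z (s1 z z') hz _ (m1_bd M hz hz')
  have h2' := abs_le.1 ((Complex.abs_re_le_norm _).trans (m1_bd M hz' hz))
  rw [Complex.add_re, (lin_re z').1] at h2'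
  have h3 := norm_sq_bd hz
  have hp := pi_bd
  have h4 := (abs_le.1 a3).2
  simp only [Complex.one_re, Complex.one_im] at h1
  obtain ⟨q, hq⟩ : ∃ q, q = 1 / π := ⟨_, rfl⟩
  rw [← hq] at h1 h1' h2 h2' hp
  have hq0 : 0 < q := by linarith
  have h5 : z.im * (q * (21/2000)) ≤ 23/100 * (q * (21/2000)) := by gcongr
  have h6 : q * (z.re ^ 2 + z.im ^ 2) ≤ q * (21/50)^2 := by gcongr
  obtain ⟨u, hu⟩ : ∃ u, u = w'.re - z'.re := ⟨_, rfl⟩
  have hwr : w'.re = z'.re + u := by linarith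
  rw [← hu] at h1' ⊢
  rw [hw2, hwr] at h1'
  have h7 : -(|u| * (q * (21/2000))) ≤ u * ((s1 z' z).re + q * (z'.re / 2)) := by
    have h8 : |(s1 z' z).re + q * (z'.re / 2)| ≤ q * (21/2000) := abs_le.2 h2'
    have h9 : |u * ((s1 z' z).re + q * (z'.re / 2))| ≤ |u| * (q * (21/2000)) := by
      rw [abs_mul]; gcongr
    exact (abs_le.1 h9).1
  have h10 : q * (4 * |u| ^ 2 - 2.228 * |u| + 0.3103) ≥ 0 := by
    apply mul_nonneg hq0.le
    nlinarith [sq_nonneg (|u| - 0.2785)]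
  rw [sq_abs] at h10
  nlinarith

/-- EK/4 -/
theorem cor : S_COR := fun P M => ⟨cor2 P M, cor3 P M, cor1 P M⟩

end Pool.Agent.N868.EK
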